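import Pool.Agent.Helper18.SG.Goals

set_option autoImplicit false

/-! SG packet G1. -/

namespace Pool.Agent.Helper90.SG

open Finset Pool.Agent.Helper18.SG

theorem sum_sub (ν : ℕ) : ∀ R : ℕ, ν ≤ R → ∑ k ∈ range R, (ν - k) = (ν + 1).choose 2 := by
  induction ν with
  | zero => intro R _; simp
  | succ ν ih =>
    intro R hR
    obtain ⟨R', rfl⟩ : ∃ R', R = R' + 1 := ⟨R - 1, by omega⟩
    rw [Finset.sum_range_succ']
    have h : ∑ k ∈ range R', (ν + 1 - (k + 1)) = ∑ k ∈ range R', (ν - k) :=
      Finset.sum_congr rfl fun k _ => by omega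
    have h2 : (ν + 1 + 1).choose 2 = (ν + 1) + (ν + 1).choose 2 := by
      rw [Nat.choose_succ_succ' (ν + 1) 1, Nat.choose_one_right]
    rw [h, ih R' (by omega), h2]
    omega

theorem goalG1 : GoalG1 := by
  intro R ν s z hν hs hz hzR h0
  rw [← sum_sub ν R hν]
  refine Finset.sum_nbij'
    (fun y => if s ≤ y then (y - s) + (if z ≤ y then 1 else 0)
      else if y + 1 = s then z - s else R - 1 - y)
    (fun k => if k < z - s then s + k else if k = z - s then s - 1
      else if k < R - s + 1 then k + s - 1 else R - 1 - k) ?_ ?_ ?_ ?_ ?_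
  · intro y hy
    simp only [mem_range] at hy ⊢
    split_ifs <;> omega
  · intro k hk
    simp only [mem_range] at hk ⊢
    split_ifs <;> omega
  · intro y hy
    simp only [mem_range] at hy
    split_ifs <;> omega
  · intro k hk
    simp only [mem_range] at hk
    split_ifs <;> omega
  · intro y hy
    simp only [mem_range] at hy
    unfold nv
    split_ifs <;> omega

end Pool.Agent.Helper90.SG
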